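import Pool.Agent.H.MP_00c8a8_co.Data

namespace Pool.Agent.H.MP_00c8a8_co

/-- read the digits (base 8) of a key along the tree -/
def look : Tr → ℕ → ℕ
  | .l c, _ => c
  | .n a b, x => bif Nat.beq (x % 8) 0 then look a (x / 8) else look b (x - 1)

def code (x : ℕ) : ℕ := look Tr.T x

/-- the colour of a key -/
def col (x : ℕ) : ℕ := code x % 7

def digit (x i : ℕ) : ℕ := x / 8 ^ i % 8

/-- colour `c` of the key `x` is a special vertex not in `x`, and adding class `j` gives a
monochromatic 6-set -/
def goodWith (x c j : ℕ) : Bool :=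
  Nat.ble (j + 1) 5 && Nat.beq (digit x c) 0 &&
    (List.range 12).all (fun i => Nat.beq (digit x i) 0 || Nat.beq (col (x + 8 ^ (7 + j) - 8 ^ i)) c)

def good (x : ℕ) : Bool := goodWith x (code x % 7) (code x / 7)

/-- run `P` on all keys with `m` more digits starting at position `i`, digit sum `r` -/
def allV (P : ℕ → Bool) : ℕ → ℕ → ℕ → ℕ → Bool
  | 0, r, _, acc => bif Nat.beq r 0 then P acc else true
  | m + 1, r, i, acc =>
    (List.range (min r (bif Nat.ble (i + 1) 7 then 1 else r) + 1)).all
      (fun c => allV P m (r - c) (i + 1) (acc + c * 8 ^ i))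

theorem all_good : allV good 12 5 0 0 = true := by decide +kernel

end Pool.Agent.H.MP_00c8a8_co
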