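import Mathlib

namespace Pool.Agent.H.MP_00c8a8_co

/-- binary decision trees -/
inductive Tr
  | l (c : ℕ) : Tr
  | n (a b : Tr) : Tr

namespace Tr

def l0 : Tr := l 0

def t0 : Tr :=
  n (n (n (l 29) (n (l 6) (n (l 7) (n (l 1) (l 26))))) (n (n (l 27) (n (l 34) (n (l 22) (l
  29)))) (n (n (l 19) (n (l 1) (l 12))) (n (n (l 12) (l 15)) (l 22))))) (n (n (n (l 9) (n (l
  21) (n (l 7) (l 1)))) (n (n (l 9) (n (l 1) (l 19))) (n (n (l 19) (l 26)) (l 33)))) (n (n (n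
  (l 2) (n (l 21) (l 28))) (n (n (l 30) (l 10)) (l 2))) (n (n (n (l 9) (l 3)) (l 24)) (l 9))))

def t1 : Tr :=
  n (n (n (l 0) (n (l 13) (n (l 17) (n (l 8) (l 4))))) (n (n (l 16) (n (l 24) (n (l 3) (l
  15)))) (n (n (l 30) (n (l 8) (l 22))) (n (l 15) (l 22))))) (n (n (n (l 27) (n (l 34) (n (l
  22) (l 8)))) (n (n (l 6) (n (l 8) (l 3))) (n (n (l 22) (l 29)) (l 3)))) (n (n (n (l 9) (n (l
  15) (l 22))) (n (n (l 22) (l 29)) (l 9))) (n (n (n (l 2) (l 10)) (l 2)) (l 24))))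

def t2 : Tr :=
  n (n (n (n (l 0) (n (l 0) (n (l 17) (l 4)))) (n (n (l 13) (n (l 24) (l 10))) (n (l 4) (l
  10)))) (n (n (n (l 20) (n (l 0) (l 17))) (n (n (l 34) (l 24)) (l 17))) (n (n (n (l 9) (l 0))
  (l 9)) (l 16)))) (n (n (n (n (l 21) (n (l 7) (l 4))) (n (l 18) (l 25))) (n (n (n (l 21) (l
  7)) (l 6)) (l 21))) (n (n (n (l 4) (l 13)) (l 20)) (l 4)))

def t3 : Tr :=
  n (n (n (l 8) (n (l 21) (n (l 7) (n (l 1) (l 19))))) (n (n (l 2) (n (l 19) (n (l 19) (l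
  26)))) (n (n (l 19) (l 33)) (n (n (l 12) (l 1)) (l 17))))) (n (n (n (l 29) (n (l 21) (n (l 7)
  (l 1)))) (n (n (l 9) (n (l 1) (l 19))) (n (n (l 19) (l 26)) (l 33)))) (n (n (n (l 2) (n (l
  21) (l 28))) (n (n (l 30) (l 10)) (l 2))) (n (n (n (l 9) (l 3)) (l 24)) (l 9))))

def t4 : Tr :=
  n (n (n (n (l 16) (n (l 0) (n (l 22) (l 8)))) (n (n (l 30) (n (l 8) (l 3))) (n (n (l 4) (l
  15)) (l 22)))) (n (n (n (l 9) (n (l 15) (l 22))) (n (n (l 22) (l 29)) (l 9))) (n (n (n (l 2)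
  (l 10)) (l 2)) (l 24)))) (n (n (n (n (l 21) (n (l 28) (l 17))) (n (n (l 4) (l 24)) (l 4))) (n
  (n (n (l 9) (l 0)) (l 9)) (l 16))) (n (n (n (n (l 4) (l 7)) (l 18)) (l 21)) (l 4)))

def t5 : Tr :=
  n (n (n (l 0) (n (l 13) (n (l 17) (n (l 8) (l 4))))) (n (n (l 16) (n (l 24) (n (l 3) (l
  15)))) (n (n (l 30) (n (l 8) (l 22))) (n (l 15) (l 22))))) (n (n (n (l 27) (n (l 34) (n (l
  22) (l 29)))) (n (n (l 6) (n (l 8) (l 3))) (n (n (l 22) (l 29)) (l 3)))) (n (n (n (l 9) (n (l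
  15) (l 7))) (n (n (l 22) (l 29)) (l 9))) (n (n (n (l 2) (l 21)) (l 2)) (l 9))))

def t6 : Tr :=
  n (n (n (n (l 0) (n (l 0) (n (l 17) (l 4)))) (n (n (l 13) (n (l 24) (l 10))) (n (l 4) (l
  10)))) (n (n (n (l 20) (n (l 0) (l 17))) (n (n (l 34) (l 24)) (l 17))) (n (n (n (l 9) (l 0))
  (l 9)) (l 16)))) (n (n (n (n (l 21) (n (l 7) (l 4))) (n (l 18) (l 25))) (n (n (n (l 21) (l
  7)) (l 6)) (l 21))) (n (n (n (l 4) (l 13)) (l 20)) (l 4)))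

def t7 : Tr :=
  n (n (n (n (l 16) (n (l 0) (n (l 22) (l 29)))) (n (n (l 30) (n (l 8) (l 3))) (n (n (l 4) (l
  15)) (l 22)))) (n (n (n (l 9) (n (l 15) (l 7))) (n (n (l 22) (l 29)) (l 9))) (n (n (n (l 2)
  (l 21)) (l 2)) (l 9)))) (n (n (n (n (l 21) (n (l 28) (l 17))) (n (n (l 4) (l 24)) (l 4))) (n
  (n (n (l 9) (l 0)) (l 9)) (l 16))) (n (n (n (n (l 4) (l 7)) (l 18)) (l 21)) (l 4)))

def t8 : Tr :=
  n (n (n (l 29) (n (l 6) (n (l 7) (n (l 1) (l 26))))) (n (n (l 27) (n (l 34) (n (l 22) (l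
  29)))) (n (n (l 19) (n (l 1) (l 12))) (n (n (l 12) (l 15)) (l 22))))) (n (n (n (l 9) (n (l
  21) (n (l 7) (l 1)))) (n (n (l 9) (n (l 1) (l 19))) (n (n (l 19) (l 26)) (l 33)))) (n (n (n
  (l 2) (n (l 21) (l 28))) (n (n (l 30) (l 10)) (l 2))) (n (n (n (l 9) (l 3)) (l 24)) (l 9))))

def t9 : Tr :=
  n (n (n (n (l 27) (n (l 34) (n (l 22) (l 8)))) (n (n (l 6) (n (l 8) (l 3))) (n (n (l 22) (l
  29)) (l 3)))) (n (n (n (l 9) (n (l 15) (l 22))) (n (n (l 22) (l 29)) (l 9))) (n (n (n (l 2)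
  (l 10)) (l 2)) (l 24)))) (n (n (n (n (l 20) (n (l 0) (l 17))) (n (n (l 34) (l 24)) (l 17)))
  (n (n (n (l 9) (l 0)) (l 9)) (l 16))) (n (n (n (n (l 21) (l 7)) (l 6)) (l 21)) (l 20)))

def t10 : Tr :=
  n (n (n (n (l 29) (n (l 21) (n (l 7) (l 1)))) (n (n (l 9) (n (l 1) (l 19))) (n (n (l 19) (l
  26)) (l 33)))) (n (n (n (l 2) (n (l 21) (l 28))) (n (n (l 30) (l 10)) (l 2))) (n (n (n (l 9)
  (l 3)) (l 24)) (l 9)))) (n (n (n (n (l 9) (n (l 15) (l 22))) (n (n (l 22) (l 29)) (l 9))) (n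
  (n (n (l 2) (l 10)) (l 2)) (l 24))) (n (n (n (n (l 9) (l 0)) (l 9)) (l 16)) (l 21)))

def t11 : Tr :=
  n (n (n (n (l 27) (n (l 34) (n (l 22) (l 29)))) (n (n (l 6) (n (l 8) (l 3))) (n (n (l 22) (l
  29)) (l 3)))) (n (n (n (l 9) (n (l 15) (l 7))) (n (n (l 22) (l 29)) (l 9))) (n (n (n (l 2) (l
  21)) (l 2)) (l 9)))) (n (n (n (n (l 20) (n (l 0) (l 17))) (n (n (l 34) (l 24)) (l 17))) (n (n
  (n (l 9) (l 0)) (l 9)) (l 16))) (n (n (n (n (l 21) (l 7)) (l 6)) (l 21)) (l 20)))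

def t12 : Tr :=
  n (n (n (n (n (n (n (l 8) (n (l 21) (n (l 21) (n (l 28) (l 26))))) (n (n (l 16) (n (l 13) (n
  (l 3) (n (l 8) (l 26))))) (n (n (l 2) (n (l 19) (n (l 19) (l 1)))) (n (n (l 12) (l 33)) (n (l
  1) (l 17)))))) t0) (n t1 t2)) (n (n t3 t4) l0)) (n (n (n t5 t6) (n t7 l0)) l0)) (n (n (n (n
  t8 t9) (n t10 l0)) (n (n t11 (n (n (n (n (n (l 9) (n (l 15) (l 7))) (n (n (l 22) (l 29)) (l
  9))) (n (n (n (l 2) (l 21)) (l 2)) (l 9))) (n (n (n (n (l 9) (l 0)) (l 9)) (l 16)) (l 21)))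
  l0)) l0)) l0)

def t13 : Tr :=
  n (n (n (l 16) (n (l 21) (n (l 28) (n (l 1) (l 12))))) (n (n (l 2) (n (l 13) (n (l 22) (l
  1)))) (n (n (l 19) (n (l 1) (l 19))) (n (n (l 33) (l 26)) (l 1))))) (n (n (n (l 9) (n (l 20)
  (n (l 1) (l 26)))) (n (n (l 27) (n (l 34) (l 12))) (n (n (l 12) (l 1)) (l 15)))) (n (n (n (l
  2) (n (l 7) (l 19))) (n (n (l 19) (l 26)) (l 33))) (n (n (n (l 21) (l 28)) (l 2)) (l 9))))

def t14 : Tr :=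
  n (n (n (n (l 16) (n (l 0) (n (l 8) (l 15)))) (n (n (l 30) (n (l 15) (l 22))) (n (n (l 22) (l
  8)) (l 15)))) (n (n (n (l 9) (n (l 22) (l 29))) (n (n (l 6) (l 15)) (l 22))) (n (n (n (l 30)
  (l 0)) (l 9)) (l 16)))) (n (n (n (n (l 21) (n (l 28) (l 4))) (n (n (l 13) (l 4)) (l 4))) (n
  (n (n (l 20) (l 7)) (l 34)) (l 0))) (n (n (n (l 4) (l 18)) (l 7)) (l 4)))

def t15 : Tr :=
  n (n (n (n (l 2) (n (l 21) (n (l 28) (l 1)))) (n (n (l 30) (n (l 1) (l 12))) (n (n (l 12) (l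
  26)) (l 33)))) (n (n (n (l 2) (n (l 7) (l 19))) (n (n (l 19) (l 26)) (l 33))) (n (n (n (l 21)
  (l 28)) (l 2)) (l 9)))) (n (n (n (n (l 9) (n (l 15) (l 22))) (n (n (l 22) (l 29)) (l 4))) (n
  (n (n (l 30) (l 0)) (l 9)) (l 16))) (n (n (n (n (l 4) (l 7)) (l 4)) (l 21)) (l 4)))

def t16 : Tr :=
  n (n (n (n (l 16) (n (l 0) (n (l 8) (l 15)))) (n (n (l 30) (n (l 15) (l 22))) (n (n (l 22) (l
  8)) (l 15)))) (n (n (n (l 9) (n (l 22) (l 29))) (n (n (l 6) (l 15)) (l 22))) (n (n (n (l 30)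
  (l 0)) (l 9)) (l 9)))) (n (n (n (n (l 21) (n (l 28) (l 4))) (n (n (l 13) (l 4)) (l 4))) (n (n
  (n (l 20) (l 7)) (l 34)) (l 0))) (n (n (n (l 4) (l 18)) (l 7)) (l 4)))

def t17 : Tr :=
  n (n (n (n (l 9) (n (l 20) (n (l 1) (l 26)))) (n (n (l 27) (n (l 34) (l 12))) (n (n (l 12) (l
  1)) (l 15)))) (n (n (n (l 2) (n (l 7) (l 19))) (n (n (l 19) (l 26)) (l 33))) (n (n (n (l 21)
  (l 28)) (l 2)) (l 9)))) (n (n (n (n (l 9) (n (l 22) (l 29))) (n (n (l 6) (l 15)) (l 22))) (n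
  (n (n (l 30) (l 0)) (l 9)) (l 16))) (n (n (n (n (l 20) (l 7)) (l 34)) (l 0)) (l 7)))

def t18 : Tr :=
  n (n t17 (n (n (n (n (n (l 2) (n (l 7) (l 19))) (n (n (l 19) (l 26)) (l 33))) (n (n (n (l 21)
  (l 28)) (l 2)) (l 9))) (n (n (n (n (l 30) (l 0)) (l 9)) (l 16)) (l 21))) l0)) (n (n (n (n (n
  (n (l 9) (n (l 22) (l 29))) (n (n (l 6) (l 15)) (l 22))) (n (n (n (l 30) (l 0)) (l 9)) (l
  9))) (n (n (n (n (l 20) (l 7)) (l 34)) (l 0)) (l 7))) (n (n (n (n (n (l 30) (l 0)) (l 9)) (l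
  9)) (l 21)) l0)) l0)

def t19 : Tr :=
  n (n (n (l 21) (n (l 21) (n (l 28) (l 26)))) (n (n (l 13) (n (l 3) (n (l 8) (l 26)))) (n (n
  (l 19) (n (l 19) (l 1))) (n (l 33) (l 1))))) (n (n (n (l 6) (n (l 7) (n (l 1) (l 26)))) (n (n
  (l 34) (n (l 22) (l 29))) (n (n (l 1) (l 12)) (l 12)))) (n (n (n (l 21) (n (l 7) (l 1))) (n
  (n (l 1) (l 19)) (l 19))) (n (n (n (l 21) (l 28)) (l 10)) (l 3))))

def t20 : Tr :=
  n (n (n (n (l 13) (n (l 17) (n (l 8) (l 4)))) (n (n (l 24) (n (l 3) (l 15))) (n (n (l 8) (l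
  22)) (l 15)))) (n (n (n (l 34) (n (l 22) (l 8))) (n (n (l 8) (l 3)) (l 29))) (n (n (n (l 15)
  (l 22)) (l 29)) (l 10)))) (n (n (n (n (l 0) (n (l 17) (l 4))) (n (n (l 24) (l 10)) (l 4))) (n
  (n (n (l 0) (l 17)) (l 24)) (l 0))) (n (n (n (n (l 7) (l 4)) (l 18)) (l 7)) (l 4)))

def t21 : Tr :=
  n (n (n (n (l 21) (n (l 7) (n (l 1) (l 19)))) (n (n (l 19) (n (l 19) (l 26))) (n (l 33) (l
  1)))) (n (n (n (l 21) (n (l 7) (l 1))) (n (n (l 1) (l 19)) (l 26))) (n (n (n (l 21) (l 28))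
  (l 10)) (l 3)))) (n (n (n (n (l 0) (n (l 22) (l 8))) (n (n (l 8) (l 3)) (l 15))) (n (n (n (l
  15) (l 22)) (l 29)) (l 10))) (n (n (n (n (l 28) (l 17)) (l 24)) (l 0)) (l 7)))

def t22 : Tr :=
  n (n (n (n (l 13) (n (l 17) (n (l 8) (l 4)))) (n (n (l 24) (n (l 3) (l 15))) (n (n (l 8) (l
  22)) (l 15)))) (n (n (n (l 34) (n (l 22) (l 29))) (n (n (l 8) (l 3)) (l 29))) (n (n (n (l 15)
  (l 7)) (l 29)) (l 21)))) (n (n (n (n (l 0) (n (l 17) (l 4))) (n (n (l 24) (l 10)) (l 4))) (n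
  (n (n (l 0) (l 17)) (l 24)) (l 0))) (n (n (n (n (l 7) (l 4)) (l 18)) (l 7)) (l 4)))

def t23 : Tr :=
  n (n (n (n (l 6) (n (l 7) (n (l 1) (l 26)))) (n (n (l 34) (n (l 22) (l 29))) (n (n (l 1) (l
  12)) (l 12)))) (n (n (n (l 21) (n (l 7) (l 1))) (n (n (l 1) (l 19)) (l 19))) (n (n (n (l 21)
  (l 28)) (l 10)) (l 3)))) (n (n (n (n (l 34) (n (l 22) (l 8))) (n (n (l 8) (l 3)) (l 29))) (n
  (n (n (l 15) (l 22)) (l 29)) (l 10))) (n (n (n (n (l 0) (l 17)) (l 24)) (l 0)) (l 7)))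

def t24 : Tr :=
  n (n t23 (n (n (n (n (n (l 21) (n (l 7) (l 1))) (n (n (l 1) (l 19)) (l 26))) (n (n (n (l 21)
  (l 28)) (l 10)) (l 3))) (n (n (n (n (l 15) (l 22)) (l 29)) (l 10)) (l 0))) l0)) (n (n (n (n
  (n (n (l 34) (n (l 22) (l 29))) (n (n (l 8) (l 3)) (l 29))) (n (n (n (l 15) (l 7)) (l 29)) (l
  21))) (n (n (n (n (l 0) (l 17)) (l 24)) (l 0)) (l 7))) (n (n (n (n (n (l 15) (l 7)) (l 29))
  (l 21)) (l 0)) l0)) l0)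

def t25 : Tr :=
  n (n (n (n (l 21) (n (l 28) (n (l 1) (l 12)))) (n (n (l 13) (n (l 22) (l 1))) (n (n (l 1) (l
  19)) (l 26)))) (n (n (n (l 20) (n (l 1) (l 26))) (n (n (l 34) (l 12)) (l 1))) (n (n (n (l 7)
  (l 19)) (l 26)) (l 28)))) (n (n (n (n (l 0) (n (l 8) (l 15))) (n (n (l 15) (l 22)) (l 8))) (n
  (n (n (l 22) (l 29)) (l 15)) (l 0))) (n (n (n (n (l 28) (l 4)) (l 4)) (l 7)) (l 4)))

def t26 : Tr :=
  n (n t25 (n (n (n (n (n (l 21) (n (l 28) (l 1))) (n (n (l 1) (l 12)) (l 26))) (n (n (n (l 7)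
  (l 19)) (l 26)) (l 28))) (n (n (n (n (l 15) (l 22)) (l 29)) (l 0)) (l 7))) l0)) (n (n (n (n
  (n (n (l 0) (n (l 8) (l 15))) (n (n (l 15) (l 22)) (l 8))) (n (n (n (l 22) (l 29)) (l 15)) (l
  0))) (n (n (n (n (l 28) (l 4)) (l 4)) (l 7)) (l 4))) (n (n (n (n (n (l 15) (l 22)) (l 29)) (l
  0)) (l 7)) l0)) l0)

def t27 : Tr :=
  n (n t26 (n (n (n (n (n (n (n (l 20) (n (l 1) (l 26))) (n (n (l 34) (l 12)) (l 1))) (n (n (n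
  (l 7) (l 19)) (l 26)) (l 28))) (n (n (n (n (l 22) (l 29)) (l 15)) (l 0)) (l 7))) (n (n (n (n
  (n (l 7) (l 19)) (l 26)) (l 28)) (l 0)) l0)) (n (n (n (n (n (n (l 22) (l 29)) (l 15)) (l 0))
  (l 7)) (l 0)) l0)) l0)) l0

def t28 : Tr :=
  n (n t12 (n (n (n (n (n t13 t14) (n t15 l0)) (n (n t16 (n (n (n (n (n (l 9) (n (l 15) (l
  22))) (n (n (l 22) (l 29)) (l 4))) (n (n (n (l 30) (l 0)) (l 9)) (l 9))) (n (n (n (n (l 4) (l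
  7)) (l 4)) (l 21)) (l 4))) l0)) l0)) (n t18 l0)) l0)) (n (n (n (n (n (n t19 t20) (n t21 l0))
  (n (n t22 (n (n (n (n (n (l 0) (n (l 22) (l 29))) (n (n (l 8) (l 3)) (l 15))) (n (n (n (l 15)
  (l 7)) (l 29)) (l 21))) (n (n (n (n (l 28) (l 17)) (l 24)) (l 0)) (l 7))) l0)) l0)) (n t24
  l0)) t27) l0)

def t29 : Tr :=
  n (n (n (l 0) (n (l 13) (n (l 21) (n (l 28) (l 12))))) (n (n (l 16) (n (l 13) (n (l 3) (l
  26)))) (n (n (l 30) (l 19)) (n (l 26) (l 17))))) (n (n (n (l 27) (n (l 20) (n (l 7) (l 26))))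
  (n (n (l 6) (n (l 34) (l 3))) (n (l 12) (l 3)))) (n (n (n (l 9) (n (l 21) (l 7))) (n (l 19)
  (l 26))) (n (n (n (l 2) (l 21)) (l 2)) (l 9))))

def t30 : Tr :=
  n (n (n (n (l 0) (n (l 0) (n (l 17) (l 4)))) (n (n (l 13) (n (l 24) (l 10))) (n (l 4) (l
  10)))) (n (n (n (l 20) (n (l 0) (l 17))) (n (n (l 34) (l 24)) (l 17))) (n (n (n (l 9) (l 0))
  (l 9)) (l 16)))) (n (n (n (n (l 21) (n (l 7) (l 4))) (n (l 18) (l 25))) (n (n (n (l 21) (l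
  7)) (l 6)) (l 21))) (n (n (n (l 4) (l 13)) (l 20)) (l 4)))

def t31 : Tr :=
  n (n (n (n (l 16) (n (l 0) (n (l 7) (l 26)))) (n (n (l 30) (n (l 19) (l 3))) (n (l 12) (l
  17)))) (n (n (n (l 9) (n (l 21) (l 7))) (n (l 19) (l 26))) (n (n (n (l 2) (l 21)) (l 2)) (l
  9)))) (n (n (n (n (l 21) (n (l 28) (l 17))) (n (n (l 4) (l 24)) (l 4))) (n (n (n (l 9) (l 0))
  (l 9)) (l 16))) (n (n (n (n (l 4) (l 7)) (l 18)) (l 21)) (l 4)))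

def t32 : Tr :=
  n (n (n (n (l 0) (n (l 0) (n (l 17) (l 4)))) (n (n (l 13) (n (l 24) (l 10))) (n (l 4) (l
  10)))) (n (n (n (l 20) (n (l 0) (l 17))) (n (n (l 34) (l 24)) (l 17))) (n (n (n (l 9) (l 0))
  (l 9)) (l 9)))) (n (n (n (n (l 21) (n (l 7) (l 4))) (n (l 18) (l 25))) (n (n (n (l 21) (l 7))
  (l 6)) (l 21))) (n (n (n (l 4) (l 13)) (l 20)) (l 4)))

def t33 : Tr :=
  n (n (n (n (l 27) (n (l 20) (n (l 7) (l 26)))) (n (n (l 6) (n (l 34) (l 3))) (n (l 12) (l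
  3)))) (n (n (n (l 9) (n (l 21) (l 7))) (n (l 19) (l 26))) (n (n (n (l 2) (l 21)) (l 2)) (l
  9)))) (n (n (n (n (l 20) (n (l 0) (l 17))) (n (n (l 34) (l 24)) (l 17))) (n (n (n (l 9) (l
  0)) (l 9)) (l 16))) (n (n (n (n (l 21) (l 7)) (l 6)) (l 21)) (l 20)))

def t34 : Tr :=
  n (n t33 (n (n (n (n (n (l 9) (n (l 21) (l 7))) (n (l 19) (l 26))) (n (n (n (l 2) (l 21)) (l
  2)) (l 9))) (n (n (n (n (l 9) (l 0)) (l 9)) (l 16)) (l 21))) l0)) (n (n (n (n (n (n (l 20) (n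
  (l 0) (l 17))) (n (n (l 34) (l 24)) (l 17))) (n (n (n (l 9) (l 0)) (l 9)) (l 9))) (n (n (n (n
  (l 21) (l 7)) (l 6)) (l 21)) (l 20))) (n (n (n (n (n (l 9) (l 0)) (l 9)) (l 9)) (l 21)) l0))
  l0)

def t35 : Tr :=
  n (n (n (n (l 16) (n (l 0) (n (l 28) (l 12)))) (n (n (l 30) (n (l 13) (l 19))) (n (l 19) (l
  26)))) (n (n (n (l 9) (n (l 20) (l 26))) (n (n (l 6) (l 34)) (l 12))) (n (n (n (l 30) (l 0))
  (l 19)) (l 9)))) (n (n (n (n (l 21) (n (l 28) (l 4))) (n (n (l 13) (l 4)) (l 4))) (n (n (n (l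
  20) (l 7)) (l 34)) (l 0))) (n (n (n (l 4) (l 18)) (l 7)) (l 4)))

def t36 : Tr :=
  n (n t35 (n (n (n (n (n (l 9) (n (l 21) (l 28))) (n (n (l 30) (l 19)) (l 12))) (n (n (n (l
  30) (l 0)) (l 19)) (l 9))) (n (n (n (n (l 4) (l 7)) (l 4)) (l 21)) (l 4))) l0)) (n (n (n (n
  (n (n (l 21) (n (l 28) (l 4))) (n (n (l 13) (l 4)) (l 4))) (n (n (n (l 20) (l 7)) (l 34)) (l
  0))) (n (n (n (l 4) (l 18)) (l 7)) (l 4))) (n (n (n (n (n (l 4) (l 7)) (l 4)) (l 21)) (l 4))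
  l0)) l0)

def t37 : Tr :=
  n (n t36 (n (n (n (n (n (n (n (l 9) (n (l 20) (l 26))) (n (n (l 6) (l 34)) (l 12))) (n (n (n
  (l 30) (l 0)) (l 19)) (l 9))) (n (n (n (n (l 20) (l 7)) (l 34)) (l 0)) (l 7))) (n (n (n (n (n
  (l 30) (l 0)) (l 19)) (l 9)) (l 21)) l0)) (n (n (n (n (n (n (l 20) (l 7)) (l 34)) (l 0)) (l
  7)) (l 21)) l0)) l0)) l0

def t38 : Tr :=
  n (n (n (n (l 28) (n (l 21) (n (l 28) (l 12)))) (n (n (l 13) (n (l 3) (l 26))) (n (l 19) (l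
  26)))) (n (n (n (l 20) (n (l 7) (l 26))) (n (n (l 34) (l 3)) (l 12))) (n (n (n (l 21) (l 7))
  (l 19)) (l 21)))) (n (n (n (n (l 0) (n (l 17) (l 4))) (n (n (l 24) (l 10)) (l 4))) (n (n (n
  (l 0) (l 17)) (l 24)) (l 0))) (n (n (n (n (l 7) (l 4)) (l 18)) (l 7)) (l 4)))

def t39 : Tr :=
  n (n t38 (n (n (n (n (n (l 0) (n (l 7) (l 26))) (n (n (l 19) (l 3)) (l 12))) (n (n (n (l 21)
  (l 7)) (l 19)) (l 21))) (n (n (n (n (l 28) (l 17)) (l 24)) (l 0)) (l 7))) l0)) (n (n (n (n (n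
  (n (l 0) (n (l 17) (l 4))) (n (n (l 24) (l 10)) (l 4))) (n (n (n (l 0) (l 17)) (l 24)) (l
  0))) (n (n (n (n (l 7) (l 4)) (l 18)) (l 7)) (l 4))) (n (n (n (n (n (l 28) (l 17)) (l 24)) (l
  0)) (l 7)) l0)) l0)

def t40 : Tr :=
  n (n (n (n (n (n (n (l 0) (n (l 28) (l 12))) (n (n (l 13) (l 19)) (l 19))) (n (n (n (l 20) (l
  26)) (l 34)) (l 0))) (n (n (n (n (l 28) (l 4)) (l 4)) (l 7)) (l 4))) (n (n (n (n (n (l 21) (l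
  28)) (l 19)) (l 0)) (l 7)) l0)) (n (n (n (n (n (n (l 28) (l 4)) (l 4)) (l 7)) (l 4)) (l 7))
  l0)) (n (n (n (n (n (n (n (l 20) (l 26)) (l 34)) (l 0)) (l 7)) (l 0)) (l 7)) l0)

def t41 : Tr :=
  n (n t39 (n (n (n (n (n (n (n (l 20) (n (l 7) (l 26))) (n (n (l 34) (l 3)) (l 12))) (n (n (n
  (l 21) (l 7)) (l 19)) (l 21))) (n (n (n (n (l 0) (l 17)) (l 24)) (l 0)) (l 7))) (n (n (n (n
  (n (l 21) (l 7)) (l 19)) (l 21)) (l 0)) l0)) (n (n (n (n (n (n (l 0) (l 17)) (l 24)) (l 0))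
  (l 7)) (l 0)) l0)) l0)) (n t40 l0)

def t42 : Tr :=
  n (n (n (l 16) (n (l 13) (n (l 3) (n (l 8) (l 26))))) (n (n (l 2) (n (l 19) (n (l 19) (l
  1)))) (n (n (l 12) (l 33)) (n (l 1) (l 17))))) (n (n (n (l 27) (n (l 34) (n (l 22) (l 29))))
  (n (n (l 19) (n (l 1) (l 12))) (n (n (l 12) (l 15)) (l 22)))) (n (n (n (l 9) (n (l 1) (l
  19))) (n (n (l 19) (l 26)) (l 33))) (n (n (n (l 30) (l 10)) (l 2)) (l 24))))

def t43 : Tr :=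
  n (n (n (n (l 16) (n (l 24) (n (l 3) (l 15)))) (n (n (l 30) (n (l 8) (l 22))) (n (l 15) (l
  22)))) (n (n (n (l 6) (n (l 8) (l 3))) (n (n (l 22) (l 29)) (l 3))) (n (n (n (l 22) (l 29))
  (l 9)) (l 2)))) (n (n (n (n (l 13) (n (l 24) (l 10))) (n (l 4) (l 10))) (n (n (n (l 34) (l
  24)) (l 17)) (l 9))) (n (n (n (l 18) (l 25)) (l 6)) (l 13)))

def t44 : Tr :=
  n (n (n (n (l 2) (n (l 19) (n (l 19) (l 26)))) (n (n (l 19) (l 33)) (n (n (l 12) (l 1)) (l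
  17)))) (n (n (n (l 9) (n (l 1) (l 19))) (n (n (l 19) (l 26)) (l 33))) (n (n (n (l 30) (l 10))
  (l 2)) (l 24)))) (n (n (n (n (l 30) (n (l 8) (l 3))) (n (n (l 4) (l 15)) (l 22))) (n (n (n (l
  22) (l 29)) (l 9)) (l 2))) (n (n (n (n (l 4) (l 24)) (l 4)) (l 9)) (l 18)))

def t45 : Tr :=
  n (n (n (n (l 16) (n (l 24) (n (l 3) (l 15)))) (n (n (l 30) (n (l 8) (l 22))) (n (l 15) (l
  22)))) (n (n (n (l 6) (n (l 8) (l 3))) (n (n (l 22) (l 29)) (l 3))) (n (n (n (l 22) (l 29))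
  (l 9)) (l 2)))) (n (n (n (n (l 13) (n (l 24) (l 10))) (n (l 4) (l 10))) (n (n (n (l 34) (l
  24)) (l 17)) (l 9))) (n (n (n (l 18) (l 25)) (l 6)) (l 13)))

def t46 : Tr :=
  n (n (n (n (l 27) (n (l 34) (n (l 22) (l 29)))) (n (n (l 19) (n (l 1) (l 12))) (n (n (l 12)
  (l 15)) (l 22)))) (n (n (n (l 9) (n (l 1) (l 19))) (n (n (l 19) (l 26)) (l 33))) (n (n (n (l
  30) (l 10)) (l 2)) (l 24)))) (n (n (n (n (l 6) (n (l 8) (l 3))) (n (n (l 22) (l 29)) (l 3)))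
  (n (n (n (l 22) (l 29)) (l 9)) (l 2))) (n (n (n (n (l 34) (l 24)) (l 17)) (l 9)) (l 6)))

def t47 : Tr :=
  n (n t46 (n (n (n (n (n (l 9) (n (l 1) (l 19))) (n (n (l 19) (l 26)) (l 33))) (n (n (n (l 30)
  (l 10)) (l 2)) (l 24))) (n (n (n (n (l 22) (l 29)) (l 9)) (l 2)) (l 9))) l0)) (n (n (n (n (n
  (n (l 6) (n (l 8) (l 3))) (n (n (l 22) (l 29)) (l 3))) (n (n (n (l 22) (l 29)) (l 9)) (l 2)))
  (n (n (n (n (l 34) (l 24)) (l 17)) (l 9)) (l 6))) (n (n (n (n (n (l 22) (l 29)) (l 9)) (l 2))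
  (l 9)) l0)) l0)

def t48 : Tr :=
  n (n (n (n (l 2) (n (l 13) (n (l 22) (l 1)))) (n (n (l 19) (n (l 1) (l 19))) (n (n (l 33) (l
  26)) (l 1)))) (n (n (n (l 27) (n (l 34) (l 12))) (n (n (l 12) (l 1)) (l 15))) (n (n (n (l 19)
  (l 26)) (l 33)) (l 2)))) (n (n (n (n (l 30) (n (l 15) (l 22))) (n (n (l 22) (l 8)) (l 15)))
  (n (n (n (l 6) (l 15)) (l 22)) (l 9))) (n (n (n (n (l 13) (l 4)) (l 4)) (l 34)) (l 18)))

def t49 : Tr :=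
  n (n t48 (n (n (n (n (n (l 30) (n (l 1) (l 12))) (n (n (l 12) (l 26)) (l 33))) (n (n (n (l
  19) (l 26)) (l 33)) (l 2))) (n (n (n (n (l 22) (l 29)) (l 4)) (l 9)) (l 4))) l0)) (n (n (n (n
  (n (n (l 30) (n (l 15) (l 22))) (n (n (l 22) (l 8)) (l 15))) (n (n (n (l 6) (l 15)) (l 22))
  (l 9))) (n (n (n (n (l 13) (l 4)) (l 4)) (l 34)) (l 18))) (n (n (n (n (n (l 22) (l 29)) (l
  4)) (l 9)) (l 4)) l0)) l0)

def t50 : Tr :=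
  n (n t49 (n (n (n (n (n (n (n (l 27) (n (l 34) (l 12))) (n (n (l 12) (l 1)) (l 15))) (n (n (n
  (l 19) (l 26)) (l 33)) (l 2))) (n (n (n (n (l 6) (l 15)) (l 22)) (l 9)) (l 34))) (n (n (n (n
  (n (l 19) (l 26)) (l 33)) (l 2)) (l 9)) l0)) (n (n (n (n (n (n (l 6) (l 15)) (l 22)) (l 9))
  (l 34)) (l 9)) l0)) l0)) l0

def t51 : Tr :=
  n (n (n (n (l 13) (n (l 3) (n (l 8) (l 26)))) (n (n (l 19) (n (l 19) (l 1))) (n (l 33) (l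
  1)))) (n (n (n (l 34) (n (l 22) (l 29))) (n (n (l 1) (l 12)) (l 12))) (n (n (n (l 1) (l 19))
  (l 19)) (l 10)))) (n (n (n (n (l 24) (n (l 3) (l 15))) (n (n (l 8) (l 22)) (l 15))) (n (n (n
  (l 8) (l 3)) (l 29)) (l 29))) (n (n (n (n (l 24) (l 10)) (l 4)) (l 24)) (l 18)))

def t52 : Tr :=
  n (n t51 (n (n (n (n (n (l 19) (n (l 19) (l 26))) (n (l 33) (l 1))) (n (n (n (l 1) (l 19)) (l
  26)) (l 10))) (n (n (n (n (l 8) (l 3)) (l 15)) (l 29)) (l 24))) l0)) (n (n (n (n (n (n (l 24)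
  (n (l 3) (l 15))) (n (n (l 8) (l 22)) (l 15))) (n (n (n (l 8) (l 3)) (l 29)) (l 29))) (n (n
  (n (n (l 24) (l 10)) (l 4)) (l 24)) (l 18))) (n (n (n (n (n (l 8) (l 3)) (l 15)) (l 29)) (l
  24)) l0)) l0)

def t53 : Tr :=
  n (n (n (n (n (n (n (l 13) (n (l 22) (l 1))) (n (n (l 1) (l 19)) (l 26))) (n (n (n (l 34) (l
  12)) (l 1)) (l 26))) (n (n (n (n (l 15) (l 22)) (l 8)) (l 15)) (l 4))) (n (n (n (n (n (l 1)
  (l 12)) (l 26)) (l 26)) (l 29)) l0)) (n (n (n (n (n (n (l 15) (l 22)) (l 8)) (l 15)) (l 4))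
  (l 29)) l0)) (n (n (n (n (n (n (n (l 34) (l 12)) (l 1)) (l 26)) (l 15)) (l 26)) (l 15)) l0)

def t54 : Tr :=
  n (n t52 (n (n (n (n (n (n (n (l 34) (n (l 22) (l 29))) (n (n (l 1) (l 12)) (l 12))) (n (n (n
  (l 1) (l 19)) (l 19)) (l 10))) (n (n (n (n (l 8) (l 3)) (l 29)) (l 29)) (l 24))) (n (n (n (n
  (n (l 1) (l 19)) (l 26)) (l 10)) (l 29)) l0)) (n (n (n (n (n (n (l 8) (l 3)) (l 29)) (l 29))
  (l 24)) (l 29)) l0)) l0)) (n t53 l0)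

def t55 : Tr :=
  n (n (n (n (n (l 16) (n (l 13) (n (l 3) (l 26)))) (n (n (l 30) (l 19)) (n (l 26) (l 17)))) (n
  (n (n (l 6) (n (l 34) (l 3))) (n (l 12) (l 3))) (n (n (l 19) (l 26)) (l 2)))) (n (n (n (n (l
  13) (n (l 24) (l 10))) (n (l 4) (l 10))) (n (n (n (l 34) (l 24)) (l 17)) (l 9))) (n (n (n (l
  18) (l 25)) (l 6)) (l 13)))) (n (n (n (n (n (l 30) (n (l 19) (l 3))) (n (l 12) (l 17))) (n (n
  (l 19) (l 26)) (l 2))) (n (n (n (n (l 4) (l 24)) (l 4)) (l 9)) (l 18))) l0)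

def t56 : Tr :=
  n (n t55 (n (n (n (n (n (n (l 13) (n (l 24) (l 10))) (n (l 4) (l 10))) (n (n (n (l 34) (l
  24)) (l 17)) (l 9))) (n (n (n (l 18) (l 25)) (l 6)) (l 13))) (n (n (n (n (n (l 4) (l 24)) (l
  4)) (l 9)) (l 18)) l0)) l0)) (n (n (n (n (n (n (n (l 6) (n (l 34) (l 3))) (n (l 12) (l 3)))
  (n (n (l 19) (l 26)) (l 2))) (n (n (n (n (l 34) (l 24)) (l 17)) (l 9)) (l 6))) (n (n (n (n (l
  19) (l 26)) (l 2)) (l 9)) l0)) (n (n (n (n (n (n (l 34) (l 24)) (l 17)) (l 9)) (l 6)) (l 9))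
  l0)) l0)

def t57 : Tr :=
  n (n (n (n (n (n (n (l 30) (n (l 13) (l 19))) (n (l 19) (l 26))) (n (n (n (l 6) (l 34)) (l
  12)) (l 19))) (n (n (n (n (l 13) (l 4)) (l 4)) (l 34)) (l 18))) (n (n (n (n (n (l 30) (l 19))
  (l 12)) (l 19)) (l 4)) l0)) (n (n (n (n (n (n (l 13) (l 4)) (l 4)) (l 34)) (l 18)) (l 4))
  l0)) (n (n (n (n (n (n (n (l 6) (l 34)) (l 12)) (l 19)) (l 34)) (l 19)) (l 34)) l0)

def t58 : Tr :=
  n (n (n (n (n (n (n (l 13) (n (l 3) (l 26))) (n (l 19) (l 26))) (n (n (n (l 34) (l 3)) (l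
  12)) (l 19))) (n (n (n (n (l 24) (l 10)) (l 4)) (l 24)) (l 18))) (n (n (n (n (n (l 19) (l 3))
  (l 12)) (l 19)) (l 24)) l0)) (n (n (n (n (n (n (l 24) (l 10)) (l 4)) (l 24)) (l 18)) (l 24))
  l0)) (n (n (n (n (n (n (n (l 34) (l 3)) (l 12)) (l 19)) (l 24)) (l 19)) (l 24)) l0)

def t59 : Tr :=
  n (n (n (n (n (n (n t42 t43) (n t44 l0)) (n (n t45 (n (n (n (n (n (l 30) (n (l 8) (l 3))) (n
  (n (l 4) (l 15)) (l 22))) (n (n (n (l 22) (l 29)) (l 9)) (l 2))) (n (n (n (n (l 4) (l 24)) (l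
  4)) (l 9)) (l 18))) l0)) l0)) (n t47 l0)) t50) (n t54 l0)) (n (n (n t56 (n t57 l0)) (n (n t58
  (n (n (n (n (n (n (n (n (l 13) (l 19)) (l 19)) (l 34)) (l 4)) (l 19)) (l 4)) (l 34)) l0))
  l0)) l0)

def t60 : Tr :=
  n (n t28 (n (n (n (n (n (n (n t29 t30) (n t31 l0)) (n (n t32 (n (n (n (n (n (l 21) (n (l 28)
  (l 17))) (n (n (l 4) (l 24)) (l 4))) (n (n (n (l 9) (l 0)) (l 9)) (l 9))) (n (n (n (n (l 4)
  (l 7)) (l 18)) (l 21)) (l 4))) l0)) l0)) (n t34 l0)) t37) (n t41 l0)) l0)) (n t59 l0)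

def T : Tr :=
  t60

end Tr

end Pool.Agent.H.MP_00c8a8_co
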